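import Mathlib
import Pool.Agent.H964.CW.Stm
import Pool.Agent.H665.QC.F4

/-! Project CW (helper964): F4g, the fourth moment, general `g` (helper155). -/

set_option autoImplicit false

open MeasureTheory ProbabilityTheory Filter Finset

namespace Pool.Agent.H155.CW

open Pool.Agent.H964.QC Pool.Agent.H964.CW

theorem hh_zero (g : ℝ) (hg : 0 ≤ g) (t : ℕ) : hh g t 0 = ((t : ℝ) + 1) ^ g := by
  unfold hh
  have e : ((t : ℝ) + 1) / (((0 : ℕ) : ℝ) + 1) = (t : ℝ) + 1 := by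
    rw [Nat.cast_zero, zero_add, div_one]
  rw [e]
  refine max_eq_right ?_
  refine Real.one_le_rpow ?_ hg
  have : (0 : ℝ) ≤ t := Nat.cast_nonneg t
  linarith

theorem t_F4g : S_F4g := by
  intro hM4 hT1 hT3 hOV hHH hRRs hTH hPH C0 κ hC0 hκ
  obtain ⟨CT, hCT, HT⟩ := hTH hT1 hRRs hHH C0 κ hC0 hκ
  obtain ⟨CP, hCP, HP⟩ := hPH hT1 hT3 hRRs hHH hOV hTH C0 κ hC0 hκ
  obtain ⟨_, -, HH⟩ := hHH
  set C₁ : ℝ := CT + CP with hC₁def
  have hC₁ : 1 ≤ C₁ := by linarith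
  have hbig : C₁ ≤ 6 * C₁ + 8 * κ * C₁ * C0 + 6 * C0 + 2 * κ * C0 ^ 2 := by
    have : 0 ≤ 8 * κ * C₁ * C0 + 6 * C0 + 2 * κ * C0 ^ 2 := by positivity
    linarith
  refine ⟨6 * C₁ + 8 * κ * C₁ * C0 + 6 * C0 + 2 * κ * C0 ^ 2, hC₁.trans hbig, ?_⟩
  intro V _ _ N0 W Ω _ P _ s2 E g η w t T hs2 hη ht hT hRR hE hg hg4 hC hw hw1
  have ht0 : (0 : ℝ) < t := by exact_mod_cast ht
  have hell : 1 ≤ 1 / g + Real.log (1 + (T : ℝ) / t) := by
    have h1 : 0 ≤ Real.log (1 + (T : ℝ) / t) := Real.log_nonneg (by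
      have : 0 ≤ (T : ℝ) / t := by positivity
      linarith)
    have h2 : 1 ≤ 1 / g := by
      rw [le_div_iff₀ hg]
      linarith
    linarith
  have hRR0 : 0 ≤ RR T := Finset.sum_nonneg fun i _ => sq_nonneg _
  have hE1 : 1 ≤ E := by
    rw [hE, le_div_iff₀ (by linarith)]
    have : 0 ≤ s2 * RR T := by positivity
    linarith
  have hmon : ∀ c : ℝ, c ≤ C₁ → c * s2 * E * (1 / g + Real.log (1 + (T : ℝ) / t)) ≤ 1 := by
    intro c hc
    refine le_trans ?_ hC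
    have hc' := hc.trans hbig
    gcongr
  have hX : s2 * E * (1 / g + Real.log (1 + (T : ℝ) / t)) ≤ 1 := by
    have h1 := hmon 1 hC₁
    rw [one_mul] at h1
    exact h1
  have hs1 : s2 ≤ 1 := by
    refine le_trans ?_ hX
    calc s2 = s2 * 1 * 1 := by ring
      _ ≤ s2 * E * (1 / g + Real.log (1 + (T : ℝ) / t)) := by gcongr
  have hX0 : 0 ≤ s2 * E * (1 / g + Real.log (1 + (T : ℝ) / t)) := by positivity
  have HG := HT V N0 W Ω P s2 E g η t T hs2 hη ht hT hRR hE hg hg4 (hmon CT (by linarith))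
  have HN := HP V N0 W Ω P s2 E g η w t T hs2 hη ht hT hRR hE hg hg4 (hmon CP (by linarith)) hw hw1
  obtain ⟨hwt0, -, -, -, -, -, hov, -, -⟩ := hOV V C0 N0 W w hw
  obtain ⟨-, hwt1, hov1⟩ := hov hw1
  obtain ⟨hanti, -, -⟩ := HH g hg hg4
  refine (hM4 V C0 N0 W Ω P s2 κ η hs2.le hκ hη w hw T).trans ?_
  rw [← hh_zero g hg.le, ← Pool.Agent.H665.QC.reindex T (fun m => ov W w m * hh g t m),
    ← Pool.Agent.H665.QC.reindex T (fun m => ov W w m / m)]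
  rw [Finset.mul_sum, Finset.mul_sum, ← Finset.sum_add_distrib, Finset.mul_sum]
  refine Finset.sum_le_sum fun j hj => ?_
  rw [Finset.mem_range] at hj
  have hm1 : 1 ≤ T - j := by omega
  have hm2 : T - j ≤ N0 := by omega
  have hhm : 1 ≤ hh g t (T - j) := Pool.Agent.H665.QC.hh_one_le _ _ _
  refine Pool.Agent.H665.QC.term_bound (fun z => wt W w (T - j) z) (fun z => N4 W P η w T j 0 z)
    (fun z => G4 W P η j 0 0 z z) (fun z z' => G4 W P η j 0 0 z z') s2 κ E C₁ C0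
    (s2 * E * (1 / g + Real.log (1 + (T : ℝ) / t))) (hh g t (T - j)) (hh g t 0) (T - j)
    hs2.le hs1 hκ hE1 hC₁ hC0 hX0 hX hm1 hhm (hanti t (Nat.zero_le _))
    (fun z => hwt0 _ z) (fun z => hwt1 _ z hm1 hm2) (hov1 _ hm1 hm2)
    (fun z => (HN j z hj.le).trans ?_) (fun z => HG j 0 z z (by omega))
    (fun z => (hT1 V C0 N0 W Ω P s2 κ η hs2.le hκ hη j 0 0 z z).1 z z)
    (fun z z' => HG j 0 z z' (by omega))
  have hCC : CP ≤ C₁ := by linarith
  have h5 : 0 ≤ hh g t (T - j) := by linarith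
  gcongr

end Pool.Agent.H155.CW
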