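import Mathlib
import Pool.Agent.H964.CW.Stm3

/-! # Project CW (helper964): FST, the first block and the main theorem -/

set_option autoImplicit false

open MeasureTheory ProbabilityTheory Filter Finset Topology

open Pool.Agent.H964.QC Pool.Agent.H964.CW

namespace Pool.Agent.H155.CW

theorem Sq_mono {Ω : Type} [MeasurableSpace Ω] {P : Measure Ω} {f : Ω → ℝ} {a b : ℝ}
    (h : Sq P f a) (hab : a ≤ b) : Sq P f b := ⟨h.1, h.2.trans hab⟩

theorem Sq_add {Ω : Type} [MeasurableSpace Ω] {P : Measure Ω} {f g : Ω → ℝ} {a b : ℝ}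
    (hf : Sq P f a) (hg : Sq P g b) : Sq P (fun ω => f ω + g ω) (2 * a + 2 * b) := by
  refine ⟨hf.1.add hg.1, ?_⟩
  have h1 : Integrable (fun ω => f ω ^ 2) P := hf.1.integrable_sq
  have h2 : Integrable (fun ω => g ω ^ 2) P := hg.1.integrable_sq
  have h3 : Integrable (fun ω => (f ω + g ω) ^ 2) P := (hf.1.add hg.1).integrable_sq
  have h4 : ∫ ω, (f ω + g ω) ^ 2 ∂P ≤ ∫ ω, (2 * f ω ^ 2 + 2 * g ω ^ 2) ∂P :=
    integral_mono h3 ((h1.const_mul 2).add (h2.const_mul 2))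
      (fun ω => by nlinarith [sq_nonneg (f ω - g ω)])
  have h5 : ∫ ω, (2 * f ω ^ 2 + 2 * g ω ^ 2) ∂P = 2 * ∫ ω, f ω ^ 2 ∂P + 2 * ∫ ω, g ω ^ 2 ∂P := by
    rw [integral_add (h1.const_mul 2) (h2.const_mul 2), integral_const_mul, integral_const_mul]
  have h6 := hf.2
  have h7 := hg.2
  linarith

theorem Sq_const {Ω : Type} [MeasurableSpace Ω] {P : Measure Ω} [IsProbabilityMeasure P] (c : ℝ) :
    Sq P (fun _ => c) (c ^ 2) := ⟨memLp_const c, by simp⟩

theorem Sq_lgZ (hMEAS : S_MEAS) (hTRJ : S_TRJ) {C0 : ℝ} {N0 M : ℕ} [NeZero M]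
    (W : Wlk (ZMod M × ZMod M) C0 N0) (hW : IsTor W)
    {Ω : Type} [MeasurableSpace Ω] (P : Measure Ω) [IsProbabilityMeasure P] (s2 κ : ℝ)
    (η : ℕ → ZMod M × ZMod M → Ω → ℝ) (hη : NoiseI P s2 κ η) (j : ℕ) (w : ZMod M × ZMod M → ℝ)
    (h0 : ∀ z, 0 ≤ w z) (h1 : ∑ z, w z = 1) (A : ℝ)
    (hV : ∀ y, Sq P (fun ω => Real.log (Zr W (cfg η ω) j y)) A) :
    Sq P (fun ω => lgZ W j w (cfg η ω)) (A + 1) := by
  obtain ⟨_, _, _, hmZ, _, _, hcfg, hZ4, hZ1, _, _⟩ :=
    hMEAS (ZMod M × ZMod M) C0 N0 W Ω P s2 κ η hη.1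
  have hgt : ∀ ω n v, -1 < cfg η ω n v := fun ω n v => hη.1.gt n v ω
  have hcv : ∀ ω, (lgZ W j w (cfg η ω)) ^ 2 ≤
      ∑ y, w y * (Real.log (Zr W (cfg η ω) j y)) ^ 2 + ∑ y, w y * Zr W (cfg η ω) j y :=
    fun ω => (hTRJ C0 N0 M W hW).2.2 (cfg η ω) j w (hgt ω) h0 h1
  have hi1 : ∀ y, Integrable (fun ω => w y * (Real.log (Zr W (cfg η ω) j y)) ^ 2) P :=
    fun y => ((hV y).1.integrable_sq).const_mul _
  have hi2 : ∀ y, Integrable (fun ω => Zr W (cfg η ω) j y) P :=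
    fun y => (hZ4 j y).integrable (by norm_num)
  have hi3 : ∀ y, Integrable (fun ω => w y * Zr W (cfg η ω) j y) P := fun y => (hi2 y).const_mul _
  have hI1 : Integrable (fun ω => ∑ y, w y * (Real.log (Zr W (cfg η ω) j y)) ^ 2) P :=
    integrable_finsetSum _ (fun y _ => hi1 y)
  have hI2 : Integrable (fun ω => ∑ y, w y * Zr W (cfg η ω) j y) P :=
    integrable_finsetSum _ (fun y _ => hi3 y)
  have hIg : Integrable (fun ω => ∑ y, w y * (Real.log (Zr W (cfg η ω) j y)) ^ 2 +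
      ∑ y, w y * Zr W (cfg η ω) j y) P := hI1.add hI2
  have hmf : Measurable (fun ω => lgZ W j w (cfg η ω)) := by
    unfold lgZ
    refine Real.measurable_log.comp ?_
    refine Finset.measurable_sum _ (fun y _ => ?_)
    exact ((hmZ j y).comp hcfg).const_mul _
  have hIf : Integrable (fun ω => (lgZ W j w (cfg η ω)) ^ 2) P := by
    refine Integrable.mono' hIg (hmf.pow_const 2).aestronglyMeasurable ?_
    refine Filter.Eventually.of_forall (fun ω => ?_)
    rw [Real.norm_eq_abs, abs_of_nonneg (sq_nonneg _)]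
    exact hcv ω
  refine ⟨(memLp_two_iff_integrable_sq hmf.aestronglyMeasurable).2 hIf, ?_⟩
  have h5 : ∫ ω, (lgZ W j w (cfg η ω)) ^ 2 ∂P ≤
      ∫ ω, (∑ y, w y * (Real.log (Zr W (cfg η ω) j y)) ^ 2 +
        ∑ y, w y * Zr W (cfg η ω) j y) ∂P := integral_mono hIf hIg hcv
  have h6 : ∫ ω, (∑ y, w y * (Real.log (Zr W (cfg η ω) j y)) ^ 2 +
        ∑ y, w y * Zr W (cfg η ω) j y) ∂P =
      ∑ y, w y * ∫ ω, (Real.log (Zr W (cfg η ω) j y)) ^ 2 ∂P + ∑ y, w y * 1 := by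
    rw [integral_add hI1 hI2, integral_finsetSum _ (fun y _ => hi1 y),
      integral_finsetSum _ (fun y _ => hi3 y)]
    congr 1
    · exact Finset.sum_congr rfl (fun y _ => integral_const_mul _ _)
    · refine Finset.sum_congr rfl (fun y _ => ?_)
      rw [integral_const_mul, hZ1 j y]
  have h7 : ∑ y, w y * ∫ ω, (Real.log (Zr W (cfg η ω) j y)) ^ 2 ∂P ≤ ∑ y, w y * A :=
    Finset.sum_le_sum (fun y _ => mul_le_mul_of_nonneg_left (hV y).2 (h0 y))
  have h8 : ∑ y, w y * A = A := by rw [← Finset.sum_mul, h1, one_mul]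
  have h9 : ∑ y, w y * (1 : ℝ) = 1 := by rw [← Finset.sum_mul, h1, one_mul]
  linarith

theorem core (hMK : S_MK) (hGM : S_GM) (hMEAS : S_MEAS) (hTRJ : S_TRJ) {C0 : ℝ} {N0 M : ℕ} [NeZero M]
    (W : Wlk (ZMod M × ZMod M) C0 N0) (hW : IsTor W)
    {Ω : Type} [MeasurableSpace Ω] (P : Measure Ω) [IsProbabilityMeasure P] (s2 κ : ℝ)
    (η : ℕ → ZMod M × ZMod M → Ω → ℝ) (hη : NoiseI P s2 κ η) (j T : ℕ) (w0 : ZMod M × ZMod M → ℝ)
    (hw0 : ∀ x, 0 ≤ w0 x) (hw1 : ∑ x, w0 x = 1) (B K v v' p A c a : ℝ)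
    (D' : (ZMod M × ZMod M → ℝ) → (ℕ → ZMod M × ZMod M → ℝ) → ℝ)
    (hDm : Measurable (fun q : (ZMod M × ZMod M → ℝ) × (ℕ → ZMod M × ZMod M → ℝ) => D' q.1 q.2))
    (hDc : ∀ w x, D' w x = D' w (cut j x))
    (hD : ∀ w, Good W T B w → Sq P (fun ω => D' w (cfg η ω)) v ∧ ∫ ω, D' w (cfg η ω) ∂P = 0 ∧
      v' ≤ ∫ ω, (D' w (cfg η ω)) ^ 2 ∂P ∧
      Sq P (fun ω => lgZ W j w (cfg η ω) + c - D' w (cfg η ω)) K)
    (hX : Sq P (fun ω => lgX W T w0 (sft j (cfg η ω))) 1)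
    (hp : P.real {ω | ¬ Good W T B (nw W T w0 (sft j (cfg η ω)))} ≤ p)
    (hV : ∀ y, Sq P (fun ω => Real.log (Zr W (cfg η ω) j y)) A)
    (hA : 0 ≤ A) (hpA : (2 * (A + 1) + 2 * c ^ 2) * p ≤ 1) (hp2 : p ≤ 1 / 2) (h0v : 0 ≤ v)
    (ha : |a| ≤ 1) (hK : 0 ≤ K) :
    ∃ D : Ω → ℝ, Sq P D v ∧ ∫ ω, D ω ∂P = 0 ∧ v' / 2 ≤ ∫ ω, (D ω) ^ 2 ∂P ∧
      Sq P (fun ω => lgZ W (j + T) w0 (cfg η ω) + (a + c) - D ω) (4 * K + 12) := by
  obtain ⟨_, _, hcut, hmZ, _, _, hcfg, hZ4, hZ1, _, _⟩ :=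
    hMEAS (ZMod M × ZMod M) C0 N0 W Ω P s2 κ η hη.1
  obtain ⟨hmk1, hmk2⟩ := hMK (ZMod M × ZMod M) C0 N0 W Ω P s2 κ η w0 j T hη.1 hw0 hw1
  have hgt : ∀ ω n v, -1 < cfg η ω n v := fun ω n v => hη.1.gt n v ω
  set G : Set (ZMod M × ZMod M → ℝ) := {w | Good W T B w} with hG
  have hGm : MeasurableSet G := hGM (ZMod M × ZMod M) C0 N0 W T B
  have hmlg : Measurable (fun q : (ZMod M × ZMod M → ℝ) × (ℕ → ZMod M × ZMod M → ℝ) =>
      lgZ W j q.1 q.2) := by
    unfold lgZ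
    refine Real.measurable_log.comp ?_
    refine Finset.measurable_sum _ (fun y _ => ?_)
    exact ((measurable_pi_apply y).comp measurable_fst).mul ((hmZ j y).comp measurable_snd)
  have hclg : ∀ (w' : ZMod M × ZMod M → ℝ) (x : ℕ → ZMod M × ZMod M → ℝ),
      lgZ W j w' x = lgZ W j w' (cut j x) := by
    intro w' x
    unfold lgZ
    rw [hcut x j]
  have hP1 : P.real {ω | nw W T w0 (sft j (cfg η ω)) ∈ G} ≤ 1 := measureReal_le_one
  have hP0 : 0 ≤ P.real {ω | nw W T w0 (sft j (cfg η ω)) ∈ G} := measureReal_nonneg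
  have hPc : P.real {ω | nw W T w0 (sft j (cfg η ω)) ∈ Gᶜ} ≤ p := hp
  have hPc0 : 0 ≤ P.real {ω | nw W T w0 (sft j (cfg η ω)) ∈ Gᶜ} := measureReal_nonneg
  have hPs : 1 / 2 ≤ P.real {ω | nw W T w0 (sft j (cfg η ω)) ∈ G} := by
    have hu : {ω | nw W T w0 (sft j (cfg η ω)) ∈ G} ∪ {ω | nw W T w0 (sft j (cfg η ω)) ∈ Gᶜ}
        = Set.univ := by
      ext ω
      simp only [Set.mem_union, Set.mem_ofPred_eq, Set.mem_compl_iff, Set.mem_univ, iff_true]
      exact em _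
    have h1 : P.real (Set.univ : Set Ω) ≤ P.real {ω | nw W T w0 (sft j (cfg η ω)) ∈ G} +
        P.real {ω | nw W T w0 (sft j (cfg η ω)) ∈ Gᶜ} := by
      rw [← hu]
      exact measureReal_union_le _ _
    have h2 : P.real (Set.univ : Set Ω) = 1 := probReal_univ
    linarith
  -- the martingale part
  obtain ⟨hD1, hD2, hD3⟩ := hmk2 G D' v v' hGm hDm hDc h0v (fun w' hw' _ _ _ => (hD w' hw').1)
  have hD2' := hD2 (fun w' hw' _ _ => (hD w' hw').2.2.1)
  have hD3' := hD3 (fun w' hw' _ _ => (hD w' hw').2.1) (fun _ => 1) measurable_const (memLp_const 1)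
  -- the remainder on the good event
  obtain ⟨hR1, _, _⟩ := hmk2 G (fun w' x => lgZ W j w' x + c - D' w' x) K 0 hGm
    ((hmlg.add_const c).sub hDm)
    (fun w' x => by
      show lgZ W j w' x + c - D' w' x = lgZ W j w' (cut j x) + c - D' w' (cut j x)
      rw [← hclg w' x, ← hDc w' x]) hK (fun w' hw' _ _ _ => (hD w' hw').2.2.2)
  -- the remainder on the bad event
  have hc2 : 0 ≤ c ^ 2 := sq_nonneg c
  obtain ⟨hB1, _, _⟩ := hmk2 Gᶜ (fun w' x => lgZ W j w' x + c) (2 * (A + 1) + 2 * c ^ 2) 0 hGm.compl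
    (hmlg.add_const c)
    (fun w' x => by
      show lgZ W j w' x + c = lgZ W j w' (cut j x) + c
      rw [← hclg w' x]) (by positivity)
    (fun w' _ h0 h1 _ => Sq_add (Sq_lgZ hMEAS hTRJ W hW P s2 κ η hη j w' h0 h1 A hV) (Sq_const c))
  refine ⟨fun ω => G.indicator (fun w' => D' w' (cfg η ω)) (nw W T w0 (sft j (cfg η ω))), ?_, ?_, ?_, ?_⟩
  · refine Sq_mono hD1 ?_
    exact mul_le_of_le_one_right h0v hP1
  · rw [← hD3']
    refine integral_congr_ae (Filter.Eventually.of_forall (fun ω => ?_))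
    show _ = (1 : ℝ) * _
    rw [one_mul]
  · rcases le_total 0 v' with h | h
    · have h1 : v' / 2 ≤ v' * P.real {ω | nw W T w0 (sft j (cfg η ω)) ∈ G} := by nlinarith
      exact h1.trans hD2'
    · have h1 : 0 ≤ ∫ ω, (G.indicator (fun w' => D' w' (cfg η ω)) (nw W T w0 (sft j (cfg η ω)))) ^ 2 ∂P :=
        integral_nonneg (fun ω => sq_nonneg _)
      linarith
  · have hR1' := Sq_mono hR1 (mul_le_of_le_one_right hK hP1)
    have hB1' : Sq P (fun ω => Gᶜ.indicator (fun w' => lgZ W j w' (cfg η ω) + c)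
        (nw W T w0 (sft j (cfg η ω)))) 1 := by
      refine Sq_mono hB1 (le_trans ?_ hpA)
      exact mul_le_mul_of_nonneg_left hPc (by positivity)
    have hca : Sq P (fun _ : Ω => a) 1 := by
      refine Sq_mono (Sq_const a) ?_
      rw [← sq_abs]
      nlinarith [abs_nonneg a]
    have h12 := Sq_add hX hca
    have h34 := Sq_add hR1' hB1'
    have h1234 := Sq_add h12 h34
    have hfe : (fun ω => lgZ W (j + T) w0 (cfg η ω) + (a + c) -
        G.indicator (fun w' => D' w' (cfg η ω)) (nw W T w0 (sft j (cfg η ω)))) =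
        (fun ω => lgX W T w0 (sft j (cfg η ω)) + a +
          (G.indicator (fun w' => lgZ W j w' (cfg η ω) + c - D' w' (cfg η ω))
              (nw W T w0 (sft j (cfg η ω))) +
            Gᶜ.indicator (fun w' => lgZ W j w' (cfg η ω) + c) (nw W T w0 (sft j (cfg η ω))))) := by
      funext ω
      rw [(hmk1 (cfg η ω) (hgt ω)).2.2.2]
      by_cases hm : nw W T w0 (sft j (cfg η ω)) ∈ G
      · have hm' : nw W T w0 (sft j (cfg η ω)) ∉ Gᶜ := fun h => h hm
        rw [Set.indicator_of_mem hm, Set.indicator_of_mem hm, Set.indicator_of_notMem hm']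
        ring
      · have hm' : nw W T w0 (sft j (cfg η ω)) ∈ Gᶜ := hm
        rw [Set.indicator_of_notMem hm, Set.indicator_of_notMem hm, Set.indicator_of_mem hm']
        ring
    rw [hfe]
    refine Sq_mono h1234 ?_
    linarith

theorem RR_succ (n : ℕ) : RR (n + 1) = RR n + rr (n + 1) := by
  unfold RR
  rw [Finset.sum_Icc_succ_top (by omega)]

theorem RR_zero : RR 0 = 0 := by
  unfold RR
  simp

theorem RR_mono (hRR : S_RR) : Monotone RR := by
  refine monotone_nat_of_le_succ (fun n => ?_)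
  rw [RR_succ]
  linarith [hRR.1 (n + 1)]

theorem RR_nonneg (hRR : S_RR) (n : ℕ) : 0 ≤ RR n := by
  have := RR_mono hRR (Nat.zero_le n)
  rwa [RR_zero] at this

theorem rr_le_one (hRR : S_RR) (n : ℕ) : rr n ≤ 1 := by
  refine (hRR.2.1 n).trans ?_
  rw [div_le_one (by positivity)]
  have : (0 : ℝ) ≤ n := Nat.cast_nonneg n
  linarith

/-- the elementary largeness facts -/
theorem large (C : ℝ) (hC : 1 ≤ C) (X : ℝ) (h16 : 16 ≤ X) (hX : (16 * (2 * C + 5 / 2)) ^ 3 ≤ X) :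
    X ^ (1 / 20 : ℝ) + 1 ≤ X / 2 ∧ X ^ (1 / 20 : ℝ) ≤ X / 4 ∧ 1 ≤ Real.log X ∧
    (2 * (C * (Real.log X) ^ 2 + 1) + 2 * (1 / 2 * Real.log X) ^ 2) * (1 / X) ^ (9 / 10 : ℝ) ≤ 1 ∧
    (1 / X) ^ (9 / 10 : ℝ) ≤ 1 / 2 := by
  have hX0 : 0 < X := by linarith
  have hX1 : 1 ≤ X := by linarith
  have h1 : X ^ (1 / 20 : ℝ) ≤ X ^ (1 / 2 : ℝ) := Real.rpow_le_rpow_of_exponent_le hX1 (by norm_num)
  have h2 : X ^ (1 / 2 : ℝ) ≤ X / 4 := by
    rw [← Real.sqrt_eq_rpow, Real.sqrt_le_left (by linarith)]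
    nlinarith
  have h3 : 1 ≤ Real.log X := by
    rw [Real.le_log_iff_exp_le hX0]
    have := Real.exp_one_lt_d9
    linarith
  have h4 : Real.log X ≤ X ^ (1 / 4 : ℝ) / (1 / 4) := Real.log_le_rpow_div hX0.le (by norm_num)
  have h5 : (X ^ (1 / 4 : ℝ)) ^ 2 = X ^ (1 / 2 : ℝ) := by
    rw [← Real.rpow_natCast, ← Real.rpow_mul hX0.le]
    norm_num
  have h6 : (Real.log X) ^ 2 ≤ 16 * X ^ (1 / 2 : ℝ) := by
    rw [← h5]
    have h7 : Real.log X ≤ 4 * X ^ (1 / 4 : ℝ) := by linarith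
    have h8 := mul_self_le_mul_self (by linarith : (0 : ℝ) ≤ Real.log X) h7
    nlinarith
  set Q : ℝ := 16 * (2 * C + 5 / 2) with hQ
  have hQ1 : 1 ≤ Q := by rw [hQ]; linarith
  have h7 : Q ≤ X ^ (2 / 5 : ℝ) := by
    have h8 : (Q ^ 3) ^ (2 / 5 : ℝ) ≤ X ^ (2 / 5 : ℝ) :=
      Real.rpow_le_rpow (by positivity) hX (by norm_num)
    have h9 : (Q ^ 3) ^ (2 / 5 : ℝ) = Q ^ (6 / 5 : ℝ) := by
      rw [← Real.rpow_natCast, ← Real.rpow_mul (by linarith)]
      norm_num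
    have h10 : Q ^ (1 : ℝ) ≤ Q ^ (6 / 5 : ℝ) := Real.rpow_le_rpow_of_exponent_le hQ1 (by norm_num)
    rw [Real.rpow_one] at h10
    linarith
  have h8 : (1 / X) ^ (9 / 10 : ℝ) = (X ^ (9 / 10 : ℝ))⁻¹ := by
    rw [one_div, Real.inv_rpow hX0.le]
  have h9 : X ^ (9 / 10 : ℝ) = X ^ (1 / 2 : ℝ) * X ^ (2 / 5 : ℝ) := by
    rw [← Real.rpow_add hX0]
    norm_num
  have h10 : 0 < X ^ (9 / 10 : ℝ) := Real.rpow_pos_of_pos hX0 _
  have h11 : 0 < X ^ (1 / 2 : ℝ) := Real.rpow_pos_of_pos hX0 _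
  refine ⟨by linarith, by linarith, h3, ?_, ?_⟩
  · rw [h8, ← div_eq_mul_inv, div_le_one h10, h9]
    have h12 : 2 * (C * (Real.log X) ^ 2 + 1) + 2 * (1 / 2 * Real.log X) ^ 2 ≤
        (2 * C + 5 / 2) * (Real.log X) ^ 2 := by
      nlinarith
    have h13 : (2 * C + 5 / 2) * (Real.log X) ^ 2 ≤ (2 * C + 5 / 2) * (16 * X ^ (1 / 2 : ℝ)) :=
      mul_le_mul_of_nonneg_left h6 (by linarith)
    have h14 : X ^ (1 / 2 : ℝ) * Q ≤ X ^ (1 / 2 : ℝ) * X ^ (2 / 5 : ℝ) :=
      mul_le_mul_of_nonneg_left h7 h11.le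
    have h15 : (2 * C + 5 / 2) * (16 * X ^ (1 / 2 : ℝ)) = X ^ (1 / 2 : ℝ) * Q := by rw [hQ]; ring
    linarith
  · rw [h8]
    have h12 : (2 : ℝ) ≤ X ^ (9 / 10 : ℝ) := by
      rw [h9]
      have h13 : (1 : ℝ) ≤ X ^ (1 / 2 : ℝ) := Real.one_le_rpow hX1 (by norm_num)
      have h14 : (2 : ℝ) ≤ Q := by rw [hQ]; linarith
      nlinarith
    rw [inv_le_comm₀ h10 (by norm_num)]
    linarith

theorem t_FST : S_FST := by
  intro hMK hGM hMEAS hIND hDUAL hRR hTRJ hAP hFB hCHA C0 κ θ1 hC0 hκ hθ1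
  obtain ⟨CF, hCF, hFB⟩ := hFB C0 κ hC0 hκ
  obtain ⟨K, L1, hK, hL1, hCHA⟩ := hCHA C0 κ θ1 hC0 hκ hθ1
  set C : ℝ := 20 * K + 49 with hC
  have hC1 : 1 ≤ C := by rw [hC]; linarith
  set Q : ℝ := (16 * (2 * C + 5 / 2)) ^ 3 with hQ
  have hQ0 : 0 ≤ Q := by rw [hQ]; positivity
  have hmono := RR_mono hRR
  refine ⟨16 + Q + CF + 8 * K + 2 * L1 + 4 * θ1 + (θ1 + L1) ^ 2 + 24, ?_, ?_⟩
  · nlinarith [sq_nonneg (θ1 + L1)]
  set Kf : ℝ := 16 + Q + CF + 8 * K + 2 * L1 + 4 * θ1 + (θ1 + L1) ^ 2 + 24 with hKf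
  have hsq : 0 ≤ (θ1 + L1) ^ 2 := sq_nonneg _
  have hKf1 : 16 ≤ Kf := by rw [hKf]; linarith
  have hKf2 : Q ≤ Kf := by rw [hKf]; linarith
  have hKf3 : CF ≤ Kf := by rw [hKf]; linarith
  have hKf4 : K ≤ Kf := by rw [hKf]; linarith
  have hKf5 : 2 * L1 ≤ Kf := by rw [hKf]; linarith
  have hKf6 : 4 * θ1 ≤ Kf := by rw [hKf]; linarith
  intro N0 M _ W hW Ω _ P _ s2 η N hs hs2 hη hcls hN hlo hup
  have hKf0 : 0 < Kf := by linarith
  have hX : Kf ≤ 1 / s2 := by
    rw [le_div_iff₀ hs]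
    rw [le_div_iff₀ hKf0] at hs2
    linarith
  set X : ℝ := 1 / s2 with hXd
  have hsX : s2 = 1 / X := by rw [hXd, one_div_one_div]
  have hX0 : 0 < X := by linarith
  obtain ⟨hl1, hl2, hl3, hl4, hl5⟩ := large C hC1 X (by linarith) (by rw [← hQ]; linarith)
  -- the first block
  have hex : ∃ n : ℕ, X ^ (1 / 20 : ℝ) ≤ RR n := ⟨N, by linarith⟩
  classical
  obtain ⟨T1, hT1a, hT1b⟩ : ∃ T1 : ℕ, X ^ (1 / 20 : ℝ) ≤ RR T1 ∧ RR T1 ≤ X ^ (1 / 20 : ℝ) + 1 := by
    refine ⟨Nat.find hex, Nat.find_spec hex, ?_⟩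
    rcases Nat.eq_zero_or_pos (Nat.find hex) with h | h
    · rw [h, RR_zero]
      have := Real.rpow_nonneg hX0.le (1 / 20 : ℝ)
      linarith
    · obtain ⟨m, hm⟩ := Nat.exists_eq_succ_of_ne_zero h.ne'
      have h1 : ¬ X ^ (1 / 20 : ℝ) ≤ RR m := Nat.find_min hex (by omega)
      rw [hm, Nat.succ_eq_add_one, RR_succ]
      have h2 := rr_le_one hRR (m + 1)
      push Not at h1
      linarith
  have hT1N : T1 ≤ N := by
    by_contra h
    push Not at h
    have h1 : RR N ≤ RR T1 := hmono h.le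
    have h2 : X ^ (1 / 20 : ℝ) + 1 ≤ X / 2 := hl1
    have h3 : RR N ≤ X / 2 := by linarith
    linarith
  set L' : ℝ := X - RR T1 with hL'
  have hL'1 : X / 2 ≤ L' := by rw [hL']; linarith
  have hL'2 : L1 ≤ L' := by linarith
  have hL'3 : L' ≤ X := by rw [hL']; linarith [RR_nonneg hRR T1]
  have hL'0 : 0 < L' := by linarith
  have hlog0 : 0 ≤ Real.log X := by linarith
  set w0 : ZMod M × ZMod M → ℝ := fun x => if x = 0 then 1 else 0 with hw0
  have hw0n : ∀ x, 0 ≤ w0 x := by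
    intro x
    rw [hw0]
    show (0 : ℝ) ≤ if x = 0 then 1 else 0
    split_ifs <;> norm_num
  have hw0s : ∑ x, w0 x = 1 := by
    rw [hw0]
    simp
  have hw0Z : ∀ (x : ℕ → ZMod M × ZMod M → ℝ) (n : ℕ), ∑ y, w0 y * Zr W x n y = Zr W x n 0 := by
    intro x n
    rw [hw0]
    simp
  have hlgZ0 : ∀ (x : ℕ → ZMod M × ZMod M → ℝ) (n : ℕ), lgZ W n w0 x = Real.log (Zr W x n 0) := by
    intro x n
    unfold lgZ
    rw [hw0Z]
  have hlgX0 : ∀ (x : ℕ → ZMod M × ZMod M → ℝ) (n : ℕ), lgX W n w0 x = Real.log (Zr W x n 0) := by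
    intro x n
    unfold lgX
    have h1 := (hDUAL (ZMod M × ZMod M) C0 N0 W x w0 0 n).2.2.1
    rw [h1, hw0Z, hw0s]
    congr 1
    ring
  -- shifted noise
  have hshN : ∀ (ζ : ℕ → ZMod M × ZMod M → Ω → ℝ), NoiseI P s2 κ ζ → ∀ j : ℕ,
      NoiseI P s2 κ (fun n v => ζ (j + n) v) := by
    intro ζ hζ j
    exact ⟨(hIND (ZMod M × ZMod M) Ω P s2 κ ζ hζ.1 j).2.2, fun n v => hζ.2 (j + n) v⟩
  -- the step
  have STEP : ∀ j : ℕ, j + T1 ≤ N → ∀ (ζ : ℕ → ZMod M × ZMod M → Ω → ℝ), NoiseI P s2 κ ζ →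
      (∀ y, Sq P (fun ω => Real.log (Zr W (cfg ζ ω) j y)) (C * (Real.log X) ^ 2)) →
      ∀ Le : ℝ, Le = max (X - RR (j + T1)) L1 →
      ∃ D : Ω → ℝ, Sq P D (K * Real.log (L' / Le)) ∧ ∫ ω, D ω ∂P = 0 ∧
        (1 / K * Real.log (L' / Le) - K) / 2 ≤ ∫ ω, (D ω) ^ 2 ∂P ∧
        Sq P (fun ω => Real.log (Zr W (cfg ζ ω) (j + T1) 0) + 1 / 2 * Real.log (X / Le) - D ω)
          (4 * K + 12) := by
    intro j hj ζ hζ hVj Le hLe
    have h4n : 4 * (j + T1) ≤ N0 := by omega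
    have h4T : 4 * T1 ≤ N0 := by omega
    obtain ⟨D', hDm, hDc, hD⟩ := hCHA N0 M W hW Ω P s2 ζ (j + T1) T1 L' Le hs
      (by
        rw [hsX]
        exact one_div_le_one_div_of_le (by linarith) (by linarith)) hζ h4n
      (by
        have h1 : RR (j + T1) ≤ RR N := hmono hj
        linarith) hLe (Nat.le_add_left _ _) hT1a rfl hL'2
    rw [Nat.add_sub_cancel] at hDc hD
    obtain ⟨hX1, hX2⟩ := hFB N0 M W hW Ω P s2 (fun n v => ζ (j + n) v) T1 hs
      (by
        rw [hsX]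
        exact one_div_le_one_div_of_le (by linarith) (by linarith)) (hshN ζ hζ j) hcls hT1b h4T
    have hLe1 : 1 ≤ Le := by rw [hLe]; exact hL1.trans (le_max_right _ _)
    have hLe2 : Le ≤ L' := by
      rw [hLe]
      refine max_le ?_ hL'2
      have h1 : RR T1 ≤ RR (j + T1) := hmono (Nat.le_add_left _ _)
      rw [hL']
      linarith
    have hLe0 : 0 < Le := by linarith
    have hc0 : 0 ≤ Real.log (L' / Le) := Real.log_nonneg (by rw [le_div_iff₀ hLe0]; linarith)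
    have hc1 : Real.log (L' / Le) ≤ Real.log X := by
      refine Real.log_le_log (by positivity) ?_
      rw [div_le_iff₀ hLe0]
      nlinarith
    have ha0 : 0 ≤ Real.log (X / L') := Real.log_nonneg (by rw [le_div_iff₀ hL'0]; linarith)
    have ha1 : Real.log (X / L') ≤ 1 := by
      have h1 : Real.log (X / L') ≤ Real.log 2 := by
        refine Real.log_le_log (by positivity) ?_
        rw [div_le_iff₀ hL'0]
        linarith
      have h2 := Real.log_two_lt_d9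
      linarith
    obtain ⟨D, h1, h2, h3, h4⟩ := core hMK hGM hMEAS hTRJ W hW P s2 κ ζ hζ j T1 w0 hw0n hw0s
      (Real.exp (L' ^ e0)) K (K * Real.log (L' / Le)) (1 / K * Real.log (L' / Le) - K)
      (s2 ^ (9 / 10 : ℝ)) (C * (Real.log X) ^ 2) (1 / 2 * Real.log (L' / Le))
      (1 / 2 * Real.log (X / L')) D' hDm hDc hD hX1 (hX2 hT1a) hVj (by positivity)
      (by
        rw [hsX]
        refine le_trans ?_ hl4
        refine mul_le_mul_of_nonneg_right ?_ (Real.rpow_nonneg (by positivity) _)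
        have h5 : (1 / 2 * Real.log (L' / Le)) ^ 2 ≤ (1 / 2 * Real.log X) ^ 2 :=
          pow_le_pow_left₀ (by positivity) (by linarith) 2
        linarith) (by rw [hsX]; exact hl5) (by positivity)
      (by rw [abs_le]; constructor <;> linarith) (by linarith)
    refine ⟨D, h1, h2, h3, ?_⟩
    have h5 : 1 / 2 * Real.log (X / L') + 1 / 2 * Real.log (L' / Le) = 1 / 2 * Real.log (X / Le) := by
      rw [Real.log_div hX0.ne' hL'0.ne', Real.log_div hL'0.ne' hLe0.ne', Real.log_div hX0.ne' hLe0.ne']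
      ring
    rw [h5] at h4
    simp only [hlgZ0] at h4
    exact h4
  -- a priori bound
  have V : ∀ n : ℕ, n ≤ N → ∀ (ζ : ℕ → ZMod M × ZMod M → Ω → ℝ), NoiseI P s2 κ ζ → ∀ y,
      Sq P (fun ω => Real.log (Zr W (cfg ζ ω) n y)) (C * (Real.log X) ^ 2) := by
    intro n
    induction n using Nat.strong_induction_on with
    | _ n ih =>
      intro hn ζ hζ y
      have H : ∀ (ξ : ℕ → ZMod M × ZMod M → Ω → ℝ), NoiseI P s2 κ ξ →
          Sq P (fun ω => Real.log (Zr W (cfg ξ ω) n 0)) (C * (Real.log X) ^ 2) := by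
        intro ξ hξ
        have hlX2 : 1 ≤ (Real.log X) ^ 2 := by nlinarith
        rcases le_total n T1 with h | h
        · obtain ⟨h1, _⟩ := hFB N0 M W hW Ω P s2 ξ n hs
            (by
              rw [hsX]
              exact one_div_le_one_div_of_le (by linarith) (by linarith)) hξ hcls
            ((hmono h).trans hT1b) (by omega)
          have h2 : Sq P (fun ω => lgX W n w0 (cfg ξ ω)) 1 := h1
          simp only [hlgX0] at h2
          refine Sq_mono h2 ?_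
          exact one_le_mul_of_one_le_of_one_le hC1 hlX2
        · obtain ⟨j, rfl⟩ : ∃ j, n = j + T1 := ⟨n - T1, by omega⟩
          have hT1pos : 0 < T1 := by
            rcases Nat.eq_zero_or_pos T1 with h0 | h0
            · exfalso
              rw [h0, RR_zero] at hT1a
              have := Real.rpow_pos_of_pos hX0 (1 / 20 : ℝ)
              linarith
            · exact h0
          obtain ⟨D, h1, _, _, h4⟩ := STEP j hn ξ hξ (ih j (by omega) (by omega) ξ hξ) _ rfl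
          set Le : ℝ := max (X - RR (j + T1)) L1 with hLe
          have hLe1 : 1 ≤ Le := by rw [hLe]; exact hL1.trans (le_max_right _ _)
          have hLe0 : 0 < Le := by linarith
          have hLe2 : Le ≤ L' := by
            rw [hLe]
            refine max_le ?_ hL'2
            have h1 : RR T1 ≤ RR (j + T1) := hmono (Nat.le_add_left _ _)
            rw [hL']
            linarith
          have hq1 : Real.log (L' / Le) ≤ Real.log X := by
            refine Real.log_le_log (by positivity) ?_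
            rw [div_le_iff₀ hLe0]
            nlinarith
          have hq2 : Real.log (X / Le) ≤ Real.log X := by
            refine Real.log_le_log (by positivity) ?_
            rw [div_le_iff₀ hLe0]
            nlinarith
          have hq3 : 0 ≤ Real.log (X / Le) := Real.log_nonneg (by rw [le_div_iff₀ hLe0]; linarith)
          have h5 := Sq_add (Sq_add h4 h1) (Sq_const (P := P) (-(1 / 2 * Real.log (X / Le))))
          have h6 : (fun ω => Real.log (Zr W (cfg ξ ω) (j + T1) 0) + 1 / 2 * Real.log (X / Le) - D ω +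
              D ω + -(1 / 2 * Real.log (X / Le))) =
              (fun ω => Real.log (Zr W (cfg ξ ω) (j + T1) 0)) := by
            funext ω
            ring
          rw [h6] at h5
          refine Sq_mono h5 ?_
          have h7 : (-(1 / 2 * Real.log (X / Le))) ^ 2 ≤ 1 / 4 * (Real.log X) ^ 2 := by
            have h70 := mul_self_le_mul_self hq3 hq2
            linarith
          have h8 : K * Real.log (L' / Le) ≤ K * Real.log X :=
            mul_le_mul_of_nonneg_left hq1 (by linarith)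
          have h9 : K * Real.log X ≤ K * (Real.log X) ^ 2 :=
            mul_le_mul_of_nonneg_left (by nlinarith) (by linarith)
          have h10 : (16 * K + 48) * 1 ≤ (16 * K + 48) * (Real.log X) ^ 2 :=
            mul_le_mul_of_nonneg_left hlX2 (by linarith)
          rw [hC]
          linarith
      have h1 := H _ ((hTRJ C0 N0 M W hW).2.1 Ω P s2 κ ζ y hζ)
      have h2 : (fun ω => Real.log (Zr W (cfg (fun (n : ℕ) (u : ZMod M × ZMod M) => ζ n (u + y)) ω) n 0))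
          = (fun ω => Real.log (Zr W (cfg ζ ω) n y)) := by
        funext ω
        have h3 := (hTRJ C0 N0 M W hW).1 (cfg ζ ω) n 0 y
        rw [zero_add] at h3
        rw [h3]
        rfl
      rw [h2] at h1
      exact h1
  -- conclusion
  obtain ⟨j, hj⟩ : ∃ j, N = j + T1 := ⟨N - T1, by omega⟩
  subst hj
  obtain ⟨D, h1, h2, h3, h4⟩ := STEP j le_rfl η hη (V j (by omega) η hη) _ rfl
  set Le : ℝ := max (X - RR (j + T1)) L1 with hLe
  have hLe1 : 1 ≤ Le := by rw [hLe]; exact hL1.trans (le_max_right _ _)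
  have hLe0 : 0 < Le := by linarith
  have hLe2 : Le ≤ θ1 + L1 := by
    rw [hLe]
    exact max_le (by linarith) (by linarith)
  have hlL : Real.log Le ≤ θ1 + L1 := by
    have := Real.log_le_sub_one_of_pos hLe0
    linarith
  have hlL0 : 0 ≤ Real.log Le := Real.log_nonneg hLe1
  have hlL' : Real.log X - Real.log 2 ≤ Real.log L' := by
    rw [← Real.log_div hX0.ne' (by norm_num)]
    exact Real.log_le_log (by positivity) hL'1
  have hlL'' : Real.log L' ≤ Real.log X := Real.log_le_log hL'0 hL'3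
  have hlog2 := Real.log_two_lt_d9
  have e1 : Real.log (L' / Le) = Real.log L' - Real.log Le := Real.log_div hL'0.ne' hLe0.ne'
  have e2 : Real.log (X / Le) = Real.log X - Real.log Le := Real.log_div hX0.ne' hLe0.ne'
  rw [e1] at h1 h3
  rw [e2] at h4
  refine ⟨D, Sq_mono h1 ?_, h2, ?_, ?_⟩
  · have h5 : K * (Real.log L' - Real.log Le) ≤ K * Real.log X :=
      mul_le_mul_of_nonneg_left (by linarith) (by linarith)
    have h6 : K * Real.log X ≤ Kf * Real.log X := mul_le_mul_of_nonneg_right hKf4 hlog0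
    linarith
  · refine le_trans ?_ h3
    have hK0 : 0 < K := by linarith
    have h5 : 1 / Kf ≤ 1 / K / 2 := by
      rw [div_div]
      exact one_div_le_one_div_of_le (by linarith) (by rw [hKf]; linarith)
    have h6 : 1 / Kf * Real.log X ≤ 1 / K / 2 * Real.log X := mul_le_mul_of_nonneg_right h5 hlog0
    have h7 : 1 / K * (Real.log X - 1 - (θ1 + L1)) ≤ 1 / K * (Real.log L' - Real.log Le) :=
      mul_le_mul_of_nonneg_left (by linarith) (by positivity)
    have h8 : 1 / K ≤ 1 := by rw [div_le_one hK0]; exact hK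
    have h9 : 1 / K * (1 + (θ1 + L1)) ≤ 1 * (1 + (θ1 + L1)) :=
      mul_le_mul_of_nonneg_right h8 (by linarith)
    have h10 : 1 + (θ1 + L1) + K ≤ 2 * Kf := by rw [hKf]; linarith
    linarith
  · have h5 := Sq_add h4 (Sq_const (P := P) (1 / 2 * Real.log Le))
    have h6 : (fun ω => Real.log (Zr W (cfg η ω) (j + T1) 0) + 1 / 2 * (Real.log X - Real.log Le) -
        D ω + 1 / 2 * Real.log Le) =
        (fun ω => Real.log (Zr W (cfg η ω) (j + T1) 0) + 1 / 2 * Real.log X - D ω) := by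
      funext ω
      ring
    rw [h6] at h5
    refine Sq_mono h5 ?_
    have h7 : (1 / 2 * Real.log Le) ^ 2 ≤ 1 / 4 * (θ1 + L1) ^ 2 := by
      have h70 := mul_self_le_mul_self hlL0 hlL
      linarith
    rw [hKf]
    linarith

end Pool.Agent.H155.CW
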